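import Pool.Agent.Helper92.Stz.Near

/-!
# MP_65a63f_an, C3: the kernel
-/

set_option autoImplicit false

namespace Stz

open Finset

namespace W92

/-! ### `nrm` and integers -/

lemma nrm_eq (A : ℕ) [NeZero A] (u : ℤ) (hu : 2 * |u| ≤ A) :
    nrm A (u : ZMod A) = |(u : ℝ)| / A := by
  unfold nrm
  by_cases h : u * 2 = -(A : ℤ)
  · have h1 : (u : ZMod A) = ((-u : ℤ) : ZMod A) := by
      have h2 : ((u * 2 : ℤ) : ZMod A) = 0 := by
        rw [h]
        simp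
      push_cast at h2 ⊢
      linear_combination h2
    have h3 : (u : ZMod A).valMinAbs = -u := by
      rw [ZMod.valMinAbs_spec]
      refine ⟨h1, ?_⟩
      constructor
      · have hA : 0 < (A : ℤ) := by exact_mod_cast Nat.pos_of_ne_zero (NeZero.ne A)
        linarith
      · linarith
    rw [h3]
    push_cast
    rw [abs_neg]
  · have h3 : (u : ZMod A).valMinAbs = u := by
      rw [ZMod.valMinAbs_spec]
      refine ⟨rfl, ?_⟩
      have h4 := abs_le.mp (by linarith : |u| ≤ |u|)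
      constructor
      · have h5 : -(A : ℤ) ≤ u * 2 := by
          have := neg_abs_le u
          linarith
        exact lt_of_le_of_ne h5 (Ne.symm h)
      · have := le_abs_self u
        linarith
    rw [h3]

lemma nrm_round (A : ℕ) [NeZero A] (u : ℤ) :
    nrm A (u : ZMod A) = |(u : ℝ) / A - round ((u : ℝ) / A)| := by
  have hA : (0 : ℝ) < A := by exact_mod_cast Nat.pos_of_ne_zero (NeZero.ne A)
  set n : ℤ := round ((u : ℝ) / A) with hn
  have h1 : (u : ZMod A) = ((u - A * n : ℤ) : ZMod A) := by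
    push_cast
    simp
  have h2 : (u : ℝ) / A - n = ((u - A * n : ℤ) : ℝ) / A := by
    push_cast
    field_simp
  have h3 : |(u : ℝ) / A - n| ≤ 1 / 2 := abs_sub_round _
  rw [h2, abs_div, abs_of_pos hA, div_le_iff₀ hA] at h3
  have h4 : 2 * |u - A * n| ≤ (A : ℤ) := by
    have h5 : ((2 * |u - A * n| : ℤ) : ℝ) ≤ ((A : ℤ) : ℝ) := by
      push_cast at h3 ⊢
      linarith
    exact_mod_cast h5
  rw [h1, nrm_eq A _ h4, h2, abs_div, abs_of_pos hA]

lemma ps_int (A : ℕ) [NeZero A] (j : ℤ) : ps A (j : ZMod A) = ex ((j : ℝ) / A) := std_ex A j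

/-! ### The kernel is a product -/

lemma F_one (A : ℕ) [NeZero A] (I : Finset ℕ) (N : ℕ) (τ ξ : ZMod A) :
    F A I N (fun _ _ => 1) τ ξ = (∑ n ∈ I, ex ((n : ℝ) ^ 2 * ((τ.val : ℝ) / A))) *
      ∑ m ∈ range N, ex ((m : ℝ) ^ 2 * ((τ.val : ℝ) / A) + m * ((ξ.val : ℝ) / A)) := by
  unfold F
  rw [sum_mul]
  refine sum_congr rfl fun n _ => ?_
  rw [mul_sum]
  refine sum_congr rfl fun m _ => ?_
  rw [one_mul, ← ex_add]
  have h1 : ((n ^ 2 + m ^ 2 : ℕ) : ZMod A) * τ + (m : ZMod A) * ξ =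
      (((n ^ 2 + m ^ 2) * τ.val + m * ξ.val : ℤ) : ZMod A) := by
    push_cast
    rw [ZMod.natCast_zmod_val, ZMod.natCast_zmod_val]
  rw [h1, ps_int]
  congr 1
  push_cast
  ring

lemma sum_Icc_shift (b N0 : ℕ) (t : ℝ) :
    ‖∑ n ∈ Icc (b + 1) (b + N0), ex ((n : ℝ) ^ 2 * t)‖ =
      ‖∑ j ∈ range N0, ex ((j : ℝ) ^ 2 * t + j * (2 * ((b : ℝ) + 1) * t))‖ := by
  have h1 : ∑ n ∈ Icc (b + 1) (b + N0), ex ((n : ℝ) ^ 2 * t) =
      ∑ j ∈ range N0, ex (((b + 1 + j : ℕ) : ℝ) ^ 2 * t) := by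
    have h2 : Icc (b + 1) (b + N0) = Ico (b + 1) (b + N0 + 1) := by
      ext x
      rw [mem_Icc, mem_Ico]
      omega
    rw [h2, sum_Ico_eq_sum_range]
    have h3 : b + N0 + 1 - (b + 1) = N0 := by omega
    rw [h3]
  have h2 : ∑ j ∈ range N0, ex (((b + 1 + j : ℕ) : ℝ) ^ 2 * t) =
      ex (((b : ℝ) + 1) ^ 2 * t) *
        ∑ j ∈ range N0, ex ((j : ℝ) ^ 2 * t + j * (2 * ((b : ℝ) + 1) * t)) := by
    rw [mul_sum]
    refine sum_congr rfl fun j _ => ?_
    rw [← ex_add]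
    congr 1
    push_cast
    ring
  rw [h1, h2, norm_mul, norm_ex, one_mul]

/-! ### Real inequalities -/

lemma comb1 {c P R N0 N v E q w m : ℝ} (hc : 0 ≤ c) (hR0 : 0 ≤ R)
    (hN0 : 0 ≤ N0) (hN0N : N0 ≤ N) (hE0 : 0 ≤ E) (hE1 : E ≤ 1) (hq : 1 ≤ q) (hqv : q ^ 2 = v)
    (hw : 1 ≤ w) (hwN : w ^ 2 = N) (hm : 1 / 2 ≤ m)
    (hP : P ≤ c * (N0 / q + w * m)) (hR : R ≤ c * (N / q * E + w * m)) :
    P * R ≤ 5 * c ^ 2 * (N0 * N / v * E + w ^ 3 * m ^ 2) := by
  have hN : 0 ≤ N := hN0.trans hN0N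
  have hq0 : 0 < q := by linarith
  have h1 : P * R ≤ (c * (N0 / q + w * m)) * (c * (N / q * E + w * m)) :=
    mul_le_mul hP hR hR0 (by positivity)
  have h2 : (c * (N0 / q + w * m)) * (c * (N / q * E + w * m)) =
      c ^ 2 * (N0 * N / v * E + (w * m * (N0 / q) + w * m * (N / q * E)) + w ^ 2 * m ^ 2) := by
    rw [← hqv]
    field_simp
    ring
  have h3 : N0 / q ≤ N := (div_le_self hN0 hq).trans hN0N
  have h4 : N / q * E ≤ N := by
    calc N / q * E ≤ N * 1 := by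
          apply mul_le_mul (div_le_self hN hq) hE1 hE0 hN
      _ = N := mul_one N
  have h5 : w * m * N ≤ 2 * (w ^ 3 * m ^ 2) := by
    rw [← hwN]
    have : 0 ≤ w ^ 3 * m := by positivity
    nlinarith
  have h6 : w * m * (N0 / q) ≤ w * m * N := mul_le_mul_of_nonneg_left h3 (by positivity)
  have h7 : w * m * (N / q * E) ≤ w * m * N := mul_le_mul_of_nonneg_left h4 (by positivity)
  have h8 : w ^ 2 * m ^ 2 ≤ w ^ 3 * m ^ 2 := by
    apply mul_le_mul_of_nonneg_right _ (by positivity)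
    exact pow_le_pow_right₀ hw (by norm_num)
  have h9 : 0 ≤ N0 * N / v * E := by
    rw [← hqv]
    positivity
  refine h1.trans ?_
  rw [h2]
  have h10 : N0 * N / v * E + (w * m * (N0 / q) + w * m * (N / q * E)) + w ^ 2 * m ^ 2 ≤
      5 * (N0 * N / v * E + w ^ 3 * m ^ 2) := by linarith
  calc c ^ 2 * (N0 * N / v * E + (w * m * (N0 / q) + w * m * (N / q * E)) + w ^ 2 * m ^ 2)
      ≤ c ^ 2 * (5 * (N0 * N / v * E + w ^ 3 * m ^ 2)) :=
        mul_le_mul_of_nonneg_left h10 (by positivity)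
    _ = 5 * c ^ 2 * (N0 * N / v * E + w ^ 3 * m ^ 2) := by ring

lemma comb2 {c d P R N0 N v T Y q w m lv : ℝ} (hc : 0 ≤ c) (hd : 0 ≤ d)
    (hR0 : 0 ≤ R) (hN0 : 0 ≤ N0) (hN0N : N0 ≤ N) (hT : 1 ≤ T) (hY : 0 ≤ Y) (hq : 1 ≤ q)
    (hqv : q ^ 2 = v) (hw : 1 ≤ w) (hwN : w ^ 2 = N) (hm : 1 / 2 ≤ m) (hmw : m ≤ 2 * w)
    (hqw : q ≤ 3 * w) (hlv0 : 0 ≤ lv) (hlv : lv ≤ 5 * m ^ 2)
    (hP : P ≤ c * (N0 / q + w * m)) (hR : R ≤ d * T / q * (N / (1 + Y) + v * lv)) :
    P * R ≤ 40 * (c * d) * T * (N0 * N / v / (1 + Y) + w ^ 3 * m ^ 2) := by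
  have hN : 0 ≤ N := hN0.trans hN0N
  have hq0 : 0 < q := by linarith
  have hY1 : 0 < 1 + Y := by linarith
  have hv0 : 0 < v := by
    rw [← hqv]
    positivity
  have h1 : P * R ≤ (c * (N0 / q + w * m)) * (d * T / q * (N / (1 + Y) + v * lv)) :=
    mul_le_mul hP hR hR0 (by positivity)
  have h2 : (c * (N0 / q + w * m)) * (d * T / q * (N / (1 + Y) + v * lv)) =
      (c * d * T) * (N0 * N / v / (1 + Y) + N0 * lv + w * m * (N / (1 + Y) / q) +
        w * m * q * lv) := by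
    rw [← hqv]
    field_simp
    ring
  have h3 : N0 * lv ≤ 5 * (w ^ 3 * m ^ 2) := by
    calc N0 * lv ≤ w ^ 2 * (5 * m ^ 2) := by
          apply mul_le_mul (by rw [hwN]; exact hN0N) hlv hlv0 (by positivity)
      _ ≤ w ^ 3 * (5 * m ^ 2) := by
          apply mul_le_mul_of_nonneg_right _ (by positivity)
          exact pow_le_pow_right₀ hw (by norm_num)
      _ = 5 * (w ^ 3 * m ^ 2) := by ring
  have h4 : w * m * (N / (1 + Y) / q) ≤ 2 * (w ^ 3 * m ^ 2) := by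
    have h5 : N / (1 + Y) / q ≤ N := by
      refine (div_le_self (by positivity) hq).trans ?_
      exact div_le_self hN (by linarith)
    calc w * m * (N / (1 + Y) / q) ≤ w * m * N := mul_le_mul_of_nonneg_left h5 (by positivity)
      _ ≤ 2 * (w ^ 3 * m ^ 2) := by
          rw [← hwN]
          have : 0 ≤ w ^ 3 * m := by positivity
          nlinarith
  have h5 : w * m * q * lv ≤ 30 * (w ^ 3 * m ^ 2) := by
    calc w * m * q * lv ≤ w * m * (3 * w) * (5 * m ^ 2) := by gcongr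
      _ = 15 * w ^ 2 * m ^ 2 * m := by ring
      _ ≤ 15 * w ^ 2 * m ^ 2 * (2 * w) := by gcongr
      _ = 30 * (w ^ 3 * m ^ 2) := by ring
  have h6 : 0 ≤ N0 * N / v / (1 + Y) := by positivity
  have h7 : 0 ≤ w ^ 3 * m ^ 2 := by positivity
  refine h1.trans ?_
  rw [h2]
  have h10 : N0 * N / v / (1 + Y) + N0 * lv + w * m * (N / (1 + Y) / q) + w * m * q * lv ≤
      40 * (N0 * N / v / (1 + Y) + w ^ 3 * m ^ 2) := by linarith
  calc (c * d * T) * (N0 * N / v / (1 + Y) + N0 * lv + w * m * (N / (1 + Y) / q) +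
        w * m * q * lv)
      ≤ (c * d * T) * (40 * (N0 * N / v / (1 + Y) + w ^ 3 * m ^ 2)) :=
        mul_le_mul_of_nonneg_left h10 (by positivity)
    _ = 40 * (c * d) * T * (N0 * N / v / (1 + Y) + w ^ 3 * m ^ 2) := by ring

lemma sqrt_bound {X C a b e : ℝ} (hX : 0 ≤ X) (hC : 0 ≤ C) (ha : 0 ≤ a) (hb : 0 ≤ b)
    (hab : a ^ 2 + b ^ 2 = e) (h : X ^ 2 ≤ C * e) : X ≤ Real.sqrt C * (a + b) := by
  apply (sq_le_sq₀ hX (by positivity)).mp
  rw [mul_pow, Real.sq_sqrt hC]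
  refine h.trans ?_
  apply mul_le_mul_of_nonneg_left _ hC
  rw [← hab]
  nlinarith [mul_nonneg ha hb]

end W92

open W92 in
theorem kernel : ∃ C : ℝ, 0 < C ∧ ∀ (N N0 b A : ℕ) [NeZero A], 1 ≤ N0 → N0 ≤ N →
    Good (8 * N) A → ∀ τ ξ : ZMod A, ∃ v a : ℕ, 1 ≤ v ∧ v ≤ 8 * N ∧ a < v ∧ Nat.Coprime a v ∧
      nrm A (τ - (a * (A / v) : ℕ)) * (8 * v * N) ≤ 1 ∧
      ‖F A (Icc (b + 1) (b + N0)) N (fun _ _ => 1) τ ξ‖ ≤
        C * ((N0 : ℝ) * N / v * (1 + (N : ℝ) ^ 2 * nrm A (τ - (a * (A / v) : ℕ))) ^ (-(1 / 3) : ℝ) +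
          (N : ℝ) ^ (3 / 2 : ℝ) * Real.log (2 * N)) ∧
      ‖F A (Icc (b + 1) (b + N0)) N (fun _ _ => 1) τ ξ‖ ≤
        C * (1 + (N : ℝ) ^ 2 * nrm A (τ - (a * (A / v) : ℕ))) *
          ((N0 : ℝ) * N / v / (1 + N * nrm A (v * ξ) / v) +
            (N : ℝ) ^ (3 / 2 : ℝ) * Real.log (2 * N)) := by
  obtain ⟨C1, hC1, hweyl⟩ := weyl
  obtain ⟨C2, hC2, hnear⟩ := near
  set c : ℝ := Real.sqrt C1 with hc
  have hc0 : 0 ≤ c := Real.sqrt_nonneg _
  refine ⟨5 * c ^ 2 + 40 * (c * C2) + 1, by positivity, ?_⟩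
  intro N N0 b A _ hN0 hN0N hgood τ ξ
  have hN : 1 ≤ N := hN0.trans hN0N
  have hA0 : 0 < A := Nat.pos_of_ne_zero (NeZero.ne A)
  have hA : (0 : ℝ) < A := by exact_mod_cast hA0
  have hN1 : (1 : ℝ) ≤ N := by exact_mod_cast hN
  have hN01 : (1 : ℝ) ≤ N0 := by exact_mod_cast hN0
  have hN0N' : (N0 : ℝ) ≤ N := by exact_mod_cast hN0N
  set t : ℝ := (τ.val : ℝ) / A with ht
  set x : ℝ := (ξ.val : ℝ) / A with hx
  obtain ⟨q, hq1, hq2⟩ := Real.exists_rat_abs_sub_le_and_den_le t (by omega : 0 < 8 * N)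
  set v : ℕ := q.den with hvdef
  have hv : 1 ≤ v := q.pos
  have hv0 : (0 : ℝ) < v := by exact_mod_cast hv
  have hv1 : (1 : ℝ) ≤ v := by exact_mod_cast hv
  have hvz : (0 : ℤ) < v := by exact_mod_cast hv
  have hcop : IsCoprime q.num (v : ℤ) := Rat.isCoprime_num_den q
  set a : ℕ := (q.num % v).toNat with ha
  have hmod0 : 0 ≤ q.num % (v : ℤ) := Int.emod_nonneg _ hvz.ne'
  have haz : (a : ℤ) = q.num % v := Int.toNat_of_nonneg hmod0
  have hav : a < v := by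
    have h1 := Int.emod_lt_of_pos q.num hvz
    have h2 : (a : ℤ) < v := by rw [haz]; exact h1
    exact_mod_cast h2
  have hacop : Nat.Coprime a v := by
    rw [← Nat.isCoprime_iff_coprime, haz]
    have h1 : q.num % (v : ℤ) = q.num + v * (-(q.num / v)) := by
      have := Int.emod_add_mul_ediv q.num v
      linarith
    rw [h1]
    exact IsCoprime.add_mul_left_left hcop _
  set β : ℝ := t - q with hβ
  have hqv : (q : ℝ) = q.num / v := by
    rw [Rat.cast_def]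
  have htq : t = q.num / v + β := by
    rw [hβ, hqv]
    ring
  have hβle : |β| * (8 * v * N) ≤ 1 := by
    have h1 : |β| ≤ 1 / ((((8 * N : ℕ) : ℝ) + 1) * v) := hq1
    have h2 : 1 / ((((8 * N : ℕ) : ℝ) + 1) * v) ≤ 1 / (8 * v * N) := by
      apply one_div_le_one_div_of_le (by positivity)
      push_cast
      nlinarith
    have h3 : |β| ≤ 1 / (8 * v * N) := h1.trans h2
    rwa [le_div_iff₀ (by positivity)] at h3
  obtain ⟨Av, hAv⟩ : v ∣ A := hgood v hv hq2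
  have hAv' : A / v = Av := by
    rw [hAv]
    exact Nat.mul_div_cancel_left Av (by omega)
  have hAvr : (A : ℝ) = v * Av := by exact_mod_cast hAv
  -- the first distance
  have hn1 : nrm A (τ - ((a * (A / v) : ℕ) : ZMod A)) = |β| := by
    have h1 : τ - ((a * (A / v) : ℕ) : ZMod A) = ((τ.val - q.num * Av : ℤ) : ZMod A) := by
      have h2 : ((q.num * Av : ℤ) : ZMod A) = ((a * (A / v) : ℕ) : ZMod A) := by
        have h3 : (q.num * Av : ℤ) = (a * Av : ℕ) + A * (q.num / v) := by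
          have h4 := Int.emod_add_mul_ediv q.num v
          rw [← haz] at h4
          rw [hAv]
          push_cast
          linear_combination (-(Av : ℤ)) * h4
        rw [h3, hAv']
        push_cast
        simp
      have h5 : (τ.val : ZMod A) = τ := ZMod.natCast_zmod_val τ
      rw [← h2]
      push_cast
      rw [h5]
    have h6 : ((τ.val - q.num * Av : ℤ) : ℝ) = A * β := by
      rw [hβ, ht, hqv, hAvr]
      have hAv0 : (Av : ℝ) ≠ 0 := by
        intro h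
        rw [h, mul_zero] at hAvr
        linarith
      push_cast
      field_simp
    have h7 : |β| ≤ 1 / 2 := by
      have h8 : (1 : ℝ) ≤ v * N := by nlinarith
      nlinarith [abs_nonneg β]
    rw [h1, nrm_eq, h6, abs_mul, abs_of_pos hA]
    · field_simp
    · have h9 : ((2 * |(τ.val : ℤ) - q.num * Av| : ℤ) : ℝ) ≤ ((A : ℤ) : ℝ) := by
        push_cast
        push_cast at h6
        rw [h6, abs_mul, abs_of_pos hA]
        nlinarith
      exact_mod_cast h9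
  -- the second distance
  have hn2 : nrm A ((v : ZMod A) * ξ) = |v * x - round (v * x)| := by
    have h1 : (v : ZMod A) * ξ = ((v * ξ.val : ℤ) : ZMod A) := by
      push_cast
      rw [ZMod.natCast_zmod_val]
    rw [h1, nrm_round]
    have h2 : ((v * ξ.val : ℤ) : ℝ) / A = v * x := by
      rw [hx]
      push_cast
      ring
    rw [h2]
  -- the two factors
  have hN0' : (0 : ℝ) ≤ N0 := by linarith
  set P : ℝ := ‖∑ j ∈ range N0, ex ((j : ℝ) ^ 2 * t + j * (2 * ((b : ℝ) + 1) * t))‖ with hP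
  set R : ℝ := ‖∑ m ∈ range N, ex ((m : ℝ) ^ 2 * t + m * x)‖ with hR
  have hP0 : 0 ≤ P := norm_nonneg _
  have hR0 : 0 ≤ R := norm_nonneg _
  set w : ℝ := Real.sqrt N with hw
  set u : ℝ := Real.sqrt v with hu
  set l : ℝ := Real.log (2 * N) with hl
  set m : ℝ := Real.sqrt l with hm
  have hlog2 : 0.69 < Real.log 2 := by
    have := Real.log_two_gt_d9
    linarith
  have hl2 : 0.69 < l := by
    have : Real.log 2 ≤ l := Real.log_le_log (by norm_num) (by linarith)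
    linarith
  have hw2 : w ^ 2 = N := Real.sq_sqrt (by linarith)
  have hu2 : u ^ 2 = v := Real.sq_sqrt hv0.le
  have hm2 : m ^ 2 = l := Real.sq_sqrt (by linarith)
  have hw1 : 1 ≤ w := Real.one_le_sqrt.mpr hN1
  have hu1 : 1 ≤ u := Real.one_le_sqrt.mpr hv1
  have hm0 : 0 ≤ m := Real.sqrt_nonneg _
  have hm1 : 1 / 2 ≤ m := by
    apply Real.le_sqrt_of_sq_le
    linarith
  have hN32 : (N : ℝ) ^ (3 / 2 : ℝ) = w ^ 3 := by
    rw [hw, Real.sqrt_eq_rpow, ← Real.rpow_natCast, ← Real.rpow_mul (by linarith)]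
    norm_num
  have hlN : l ≤ 2 * N := by
    have := Real.log_le_sub_one_of_pos (by linarith : (0 : ℝ) < 2 * N)
    linarith
  have hmw : m ≤ 2 * w := by
    apply (sq_le_sq₀ hm0 (by positivity)).mp
    rw [mul_pow, hm2, hw2]
    linarith
  have hvN : (v : ℝ) ≤ 8 * N := by exact_mod_cast hq2
  have huw : u ≤ 3 * w := by
    apply (sq_le_sq₀ (by linarith) (by positivity)).mp
    rw [mul_pow, hu2, hw2]
    linarith
  have hPw : P ≤ c * (N0 / u + w * m) := by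
    have h1 := hweyl N N0 v q.num β (2 * ((b : ℝ) + 1) * t) hN0 hN0N hv hq2 hcop hβle
    rw [← htq, ← hP, ← hl] at h1
    refine sqrt_bound hP0 hC1.le (by positivity) (by positivity) rfl (h1.trans ?_)
    apply mul_le_mul_of_nonneg_left _ hC1.le
    have h2 : ((N0 : ℝ) / u) ^ 2 = (N0 : ℝ) ^ 2 / v := by rw [div_pow, hu2]
    have h3 : (w * m) ^ 2 = N * l := by rw [mul_pow, hw2, hm2]
    rw [h2, h3]
    have h4 : (1 + (N0 : ℝ) ^ 2 * |β|) ^ (-(2 / 3) : ℝ) ≤ 1 := by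
      apply Real.rpow_le_one_of_one_le_of_nonpos _ (by norm_num)
      have : 0 ≤ (N0 : ℝ) ^ 2 * |β| := by positivity
      linarith
    have h5 : (N0 : ℝ) ^ 2 / v * (1 + (N0 : ℝ) ^ 2 * |β|) ^ (-(2 / 3) : ℝ) ≤
        (N0 : ℝ) ^ 2 / v * 1 := mul_le_mul_of_nonneg_left h4 (by positivity)
    linarith
  set s : ℝ := (N : ℝ) ^ 2 * |β| with hs
  have hs0 : 0 ≤ s := by positivity
  set E : ℝ := (1 + s) ^ (-(1 / 3) : ℝ) with hE
  have hE0 : 0 ≤ E := by positivity
  have hE1 : E ≤ 1 := Real.rpow_le_one_of_one_le_of_nonpos (by linarith) (by norm_num)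
  have hRw : R ≤ c * (N / u * E + w * m) := by
    have h1 := hweyl N N v q.num β x hN le_rfl hv hq2 hcop hβle
    rw [← htq, ← hR, ← hl, ← hs] at h1
    refine sqrt_bound hR0 hC1.le (by positivity) (by positivity) ?_ h1
    have h3 : (w * m) ^ 2 = N * l := by rw [mul_pow, hw2, hm2]
    have h4 : E ^ 2 = (1 + s) ^ (-(2 / 3) : ℝ) := by
      rw [hE, ← Real.rpow_natCast, ← Real.rpow_mul (by linarith)]
      congr 1
      norm_num
    rw [mul_pow, div_pow, hu2, h3, h4]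
  have hC : 0 ≤ c ^ 2 := by positivity
  have hlogv : Real.log (2 * v) ≤ 5 * m ^ 2 := by
    rw [hm2]
    have h4 : Real.log (2 * v) ≤ Real.log (16 * N) :=
      Real.log_le_log (by positivity) (by linarith)
    have h5 : Real.log (16 * N) = 3 * Real.log 2 + l := by
      have h6 : (16 * N : ℝ) = 2 ^ 3 * (2 * N) := by ring
      rw [h6, Real.log_mul (by norm_num) (by positivity), Real.log_pow, hl]
      norm_num
    have h6 : Real.log 2 ≤ l := Real.log_le_log (by norm_num) (by linarith)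
    linarith
  refine ⟨v, a, hv, hq2, hav, hacop, ?_, ?_, ?_⟩
  · rw [hn1]
    exact hβle
  · -- the first bound
    rw [hn1, F_one, norm_mul, sum_Icc_shift, ← ht, ← hx, ← hP, ← hR, ← hs, ← hE, hN32, ← hm2]
    have h1 := comb1 hc0 hR0 hN0' hN0N' hE0 hE1 hu1 hu2 hw1 hw2 hm1 hPw hRw
    refine h1.trans (mul_le_mul_of_nonneg_right ?_ (by positivity))
    have : 0 ≤ c * C2 := by positivity
    linarith
  · rw [hn1, hn2, F_one, norm_mul, sum_Icc_shift, ← ht, ← hx, ← hP, ← hR, ← hs, hN32, ← hm2]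
    have h1 := hnear N v q.num β x hN hv hcop
    rw [← htq, ← hR, ← hs, ← hu] at h1
    have h2 := comb2 hc0 hC2.le hR0 hN0' hN0N' (by linarith : 1 ≤ 1 + s)
      (by positivity : 0 ≤ (N : ℝ) * |v * x - round (v * x)| / v) hu1 hu2 hw1 hw2 hm1 hmw huw
      (Real.log_nonneg (by linarith)) hlogv hPw h1
    refine h2.trans (mul_le_mul_of_nonneg_right ?_ (by positivity))
    apply mul_le_mul_of_nonneg_right _ (by linarith)
    linarith

end Stz
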