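import Pool.Agent.Helper92.Stz.Weyl

/-!
# MP_65a63f_an, C2: localisation in `x` near rationals
-/

set_option autoImplicit false

namespace Stz

open Finset

namespace W92

lemma ex_sub_one_le (t : ℝ) : ‖ex t - 1‖ ≤ 2 * Real.pi * |t| := by
  have h2 : ex t = Complex.exp (Complex.I * ((2 * Real.pi * t : ℝ) : ℂ)) := by
    unfold ex
    congr 1
    push_cast
    ring
  rw [h2]
  refine Real.norm_exp_I_mul_ofReal_sub_one_le.trans (le_of_eq ?_)
  rw [Real.norm_eq_abs, abs_mul, abs_of_pos (by positivity)]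

lemma sum_odd (n : ℕ) : ∑ m ∈ range n, (2 * (m : ℝ) + 1) = (n : ℝ) ^ 2 := by
  induction n with
  | zero => simp
  | succ n ih =>
    rw [sum_range_succ, ih]
    push_cast
    ring

/-- partial summation -/
lemma abel (N : ℕ) (β u D : ℝ) (hD : ∀ M ≤ N, ‖∑ m ∈ range M, ex (m * u)‖ ≤ D) :
    ‖∑ m ∈ range N, ex ((m : ℝ) ^ 2 * β + m * u)‖ ≤ (1 + 2 * Real.pi * ((N : ℝ) ^ 2 * |β|)) * D := by
  have hD0 : 0 ≤ D := (norm_nonneg _).trans (hD N le_rfl)
  have h1 : ∑ m ∈ range N, ex ((m : ℝ) ^ 2 * β + m * u) =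
      ∑ m ∈ range N, ex ((m : ℝ) ^ 2 * β) • ex (m * u) :=
    sum_congr rfl fun m _ => by rw [ex_add, smul_eq_mul]
  rw [h1, sum_range_by_parts (fun m : ℕ => ex ((m : ℝ) ^ 2 * β)) (fun m : ℕ => ex (m * u))]
  have h2 : ‖ex (((N - 1 : ℕ) : ℝ) ^ 2 * β) • ∑ m ∈ range N, ex (m * u)‖ ≤ D := by
    rw [smul_eq_mul, norm_mul, norm_ex, one_mul]
    exact hD N le_rfl
  have h3 : ‖∑ i ∈ range (N - 1), (ex (((i + 1 : ℕ) : ℝ) ^ 2 * β) - ex ((i : ℝ) ^ 2 * β)) •
      ∑ m ∈ range (i + 1), ex (m * u)‖ ≤ 2 * Real.pi * ((N : ℝ) ^ 2 * |β|) * D := by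
    refine (norm_sum_le _ _).trans ?_
    have h4 : ∀ i ∈ range (N - 1), ‖(ex (((i + 1 : ℕ) : ℝ) ^ 2 * β) - ex ((i : ℝ) ^ 2 * β)) •
        ∑ m ∈ range (i + 1), ex (m * u)‖ ≤ (2 * Real.pi * |β| * D) * (2 * (i : ℝ) + 1) := by
      intro i hi
      rw [mem_range] at hi
      rw [smul_eq_mul, norm_mul]
      have h5 : ex (((i + 1 : ℕ) : ℝ) ^ 2 * β) - ex ((i : ℝ) ^ 2 * β) =
          ex ((i : ℝ) ^ 2 * β) * (ex ((2 * (i : ℝ) + 1) * β) - 1) := by
        rw [mul_sub, mul_one, ← ex_add]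
        congr 2
        push_cast
        ring
      rw [h5, norm_mul, norm_ex, one_mul]
      have h6 := ex_sub_one_le ((2 * (i : ℝ) + 1) * β)
      rw [abs_mul, abs_of_nonneg (by positivity : (0 : ℝ) ≤ 2 * (i : ℝ) + 1)] at h6
      have h7 := hD (i + 1) (by omega)
      calc ‖ex ((2 * (i : ℝ) + 1) * β) - 1‖ * ‖∑ m ∈ range (i + 1), ex (m * u)‖
          ≤ (2 * Real.pi * ((2 * (i : ℝ) + 1) * |β|)) * D :=
            mul_le_mul h6 h7 (norm_nonneg _) (by positivity)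
        _ = (2 * Real.pi * |β| * D) * (2 * (i : ℝ) + 1) := by ring
    refine (sum_le_sum h4).trans ?_
    rw [← mul_sum, sum_odd]
    have h8 : (((N - 1 : ℕ) : ℝ)) ^ 2 ≤ (N : ℝ) ^ 2 := by
      apply pow_le_pow_left₀ (by positivity)
      exact_mod_cast Nat.sub_le N 1
    calc 2 * Real.pi * |β| * D * ((N - 1 : ℕ) : ℝ) ^ 2
        ≤ 2 * Real.pi * |β| * D * (N : ℝ) ^ 2 := by gcongr
      _ = 2 * Real.pi * ((N : ℝ) ^ 2 * |β|) * D := by ring
  calc ‖ex (((N - 1 : ℕ) : ℝ) ^ 2 * β) • ∑ m ∈ range N, ex (m * u) -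
        ∑ i ∈ range (N - 1), (ex (((i + 1 : ℕ) : ℝ) ^ 2 * β) - ex ((i : ℝ) ^ 2 * β)) •
          ∑ m ∈ range (i + 1), ex (m * u)‖
      ≤ _ := norm_sub_le _ _
    _ ≤ D + 2 * Real.pi * ((N : ℝ) ^ 2 * |β|) * D := add_le_add h2 h3
    _ = (1 + 2 * Real.pi * ((N : ℝ) ^ 2 * |β|)) * D := by ring

/-! ### Gauss sums -/

lemma gauss (v : ℕ) [NeZero v] (a : ZMod v) (ha : IsUnit a) (b : ZMod v) :
    ‖∑ k : ZMod v, (ZMod.stdAddChar (a * k ^ 2 - b * k) : ℂ)‖ ^ 2 ≤ 2 * v := by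
  classical
  set S : ℂ := ∑ k : ZMod v, (ZMod.stdAddChar (a * k ^ 2 - b * k) : ℂ) with hS
  have h1 : ((‖S‖ ^ 2 : ℝ) : ℂ) = ∑ h : ZMod v, (ZMod.stdAddChar (a * h ^ 2 - b * h) : ℂ) *
      (if 2 * a * h = 0 then (v : ℂ) else 0) := by
    have h2 : ((‖S‖ ^ 2 : ℝ) : ℂ) = S * (starRingEnd ℂ) S := by
      rw [Complex.mul_conj, Complex.normSq_eq_norm_sq]
    have h3 : (starRingEnd ℂ) S = ∑ l : ZMod v, (ZMod.stdAddChar (-(a * l ^ 2 - b * l)) : ℂ) := by
      rw [hS, map_sum]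
      exact sum_congr rfl fun l _ => (AddChar.map_neg_eq_conj _ _).symm
    rw [h2, h3, mul_comm, sum_mul]
    have h4 : ∀ l : ZMod v, (ZMod.stdAddChar (-(a * l ^ 2 - b * l)) : ℂ) * S =
        ∑ h : ZMod v, (ZMod.stdAddChar (a * h ^ 2 - b * h) : ℂ) *
          ZMod.stdAddChar (l * (2 * a * h)) := by
      intro l
      rw [hS, mul_sum, ← Equiv.sum_comp (Equiv.addRight l)]
      refine sum_congr rfl fun h _ => ?_
      rw [← AddChar.map_add_eq_mul, ← AddChar.map_add_eq_mul]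
      congr 1
      simp only [Equiv.coe_addRight]
      ring
    rw [sum_congr rfl fun l _ => h4 l, sum_comm]
    refine sum_congr rfl fun h _ => ?_
    rw [← mul_sum, AddChar.sum_mulShift _ (ZMod.isPrimitive_stdAddChar v), ZMod.card]
    push_cast
    rfl
  have h5 : (‖S‖ ^ 2 : ℝ) ≤ ∑ h : ZMod v, (if 2 * a * h = 0 then (v : ℝ) else 0) := by
    have h6 : (‖S‖ ^ 2 : ℝ) = ‖((‖S‖ ^ 2 : ℝ) : ℂ)‖ := by
      rw [Complex.norm_real, Real.norm_eq_abs, abs_of_nonneg (by positivity)]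
    rw [h6, h1]
    refine (norm_sum_le _ _).trans (le_of_eq ?_)
    refine sum_congr rfl fun h _ => ?_
    rw [norm_mul, AddChar.norm_apply, one_mul]
    split_ifs <;> simp
  refine h5.trans ?_
  rw [← sum_filter, sum_const, nsmul_eq_mul]
  have h7 : (univ.filter fun h : ZMod v => 2 * a * h = 0).card ≤ 2 := by
    have h8 : (univ.filter fun h : ZMod v => 2 * a * h = 0) ⊆
        (univ.filter fun h : ZMod v => 2 • h = 0) := by
      intro h hh
      rw [mem_filter] at hh ⊢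
      refine ⟨mem_univ _, ?_⟩
      obtain ⟨w, hw⟩ := ha
      have h9 : a * (2 • h) = 0 := by
        rw [← hh.2]
        simp
        ring
      rw [← hw] at h9
      exact (Units.mul_right_eq_zero w).mp h9
    exact (card_le_card h8).trans (IsAddCyclic.card_nsmul_eq_zero_le (by norm_num))
  have h10 : ((univ.filter fun h : ZMod v => 2 * a * h = 0).card : ℝ) ≤ 2 := by exact_mod_cast h7
  exact mul_le_mul_of_nonneg_right h10 (by positivity)

/-- coefficients of `m ↦ e(a m ^ 2 / v)` -/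
noncomputable def gam (v : ℕ) [NeZero v] (a b : ZMod v) : ℂ :=
  (v : ℂ)⁻¹ * ∑ k : ZMod v, (ZMod.stdAddChar (a * k ^ 2 - b * k) : ℂ)

lemma gam_le (v : ℕ) [NeZero v] (a b : ZMod v) (ha : IsUnit a) :
    ‖gam v a b‖ ≤ 2 / Real.sqrt v := by
  have hv : (0 : ℝ) < v := by exact_mod_cast Nat.pos_of_ne_zero (NeZero.ne v)
  have h1 := gauss v a ha b
  unfold gam
  rw [norm_mul, norm_inv, Complex.norm_natCast]
  have h2 : ‖∑ k : ZMod v, (ZMod.stdAddChar (a * k ^ 2 - b * k) : ℂ)‖ ≤ 2 * Real.sqrt v := by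
    apply (sq_le_sq₀ (norm_nonneg _) (by positivity)).mp
    rw [mul_pow, Real.sq_sqrt hv.le]
    linarith
  have h3 : Real.sqrt v * Real.sqrt v = v := Real.mul_self_sqrt hv.le
  have hs : 0 < Real.sqrt v := Real.sqrt_pos.mpr hv
  rw [le_div_iff₀ hs, inv_mul_eq_div, div_mul_eq_mul_div, div_le_iff₀ hv]
  nlinarith

lemma gam_inv (v : ℕ) [NeZero v] (a m : ZMod v) :
    ∑ b : ZMod v, gam v a b * (ZMod.stdAddChar (b * m) : ℂ) = ZMod.stdAddChar (a * m ^ 2) := by
  classical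
  have hv : (v : ℂ) ≠ 0 := by exact_mod_cast NeZero.ne v
  unfold gam
  calc ∑ b : ZMod v, (v : ℂ)⁻¹ * (∑ k : ZMod v, (ZMod.stdAddChar (a * k ^ 2 - b * k) : ℂ)) *
        (ZMod.stdAddChar (b * m) : ℂ)
      = (v : ℂ)⁻¹ * ∑ b : ZMod v, ∑ k : ZMod v, (ZMod.stdAddChar (a * k ^ 2) : ℂ) *
        ZMod.stdAddChar (b * (m - k)) := by
        rw [mul_sum]
        refine sum_congr rfl fun b _ => ?_
        rw [mul_assoc, sum_mul]
        congr 1
        refine sum_congr rfl fun k _ => ?_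
        rw [← AddChar.map_add_eq_mul, ← AddChar.map_add_eq_mul]
        congr 1
        ring
    _ = (v : ℂ)⁻¹ * ∑ k : ZMod v, (ZMod.stdAddChar (a * k ^ 2) : ℂ) *
        (if m - k = 0 then (v : ℂ) else 0) := by
        rw [sum_comm]
        congr 1
        refine sum_congr rfl fun k _ => ?_
        rw [← mul_sum, AddChar.sum_mulShift _ (ZMod.isPrimitive_stdAddChar v), ZMod.card]
        push_cast
        rfl
    _ = ZMod.stdAddChar (a * m ^ 2) := by
        have h2 : ∀ k : ZMod v, (ZMod.stdAddChar (a * k ^ 2) : ℂ) *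
            (if m - k = 0 then (v : ℂ) else 0) =
            if m = k then (ZMod.stdAddChar (a * k ^ 2) : ℂ) * v else 0 := by
          intro k
          by_cases h : m = k
          · simp [h]
          · have : m - k ≠ 0 := sub_ne_zero.mpr h
            simp [h, this]
        rw [sum_congr rfl fun k _ => h2 k, sum_ite_eq]
        simp only [mem_univ, if_true]
        field_simp

lemma std_ex (v : ℕ) [NeZero v] (j : ℤ) :
    (ZMod.stdAddChar (j : ZMod v) : ℂ) = ex ((j : ℝ) / v) := by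
  rw [ZMod.stdAddChar_coe]
  unfold ex
  congr 1
  push_cast
  ring

/-- the inner sums, each bounded by the distance of `x + b / v` to the integers -/
lemma inner (N v : ℕ) [NeZero v] (x : ℝ) (b : ZMod v) (M : ℕ) (hM : M ≤ N) :
    ‖∑ m ∈ range M, ex (m * (x + b.val / v))‖ ≤
      (if ((round (v * x) : ℤ) : ZMod v) + b = 0 then
        2 * (N : ℝ) / (1 + N * |v * x - round (v * x)| / v) else 0) +
      Gv v (((round (v * x) : ℤ) : ZMod v) + b) := by
  have hv0 : (0 : ℝ) < v := by exact_mod_cast Nat.pos_of_ne_zero (NeZero.ne v)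
  set R : ℤ := round (v * x) with hR
  set ρ : ℝ := v * x - R with hρ
  have hρ2 : |ρ| ≤ 1 / 2 := abs_sub_round _
  set φ : ℝ := x + b.val / v with hφ
  have hX := norm_nonneg (∑ m ∈ range M, ex (m * φ))
  have hG := Gv_nonneg v ((R : ZMod v) + b)
  have hcard := geo_card φ M
  have hMN : (M : ℝ) ≤ N := by exact_mod_cast hM
  split_ifs with h0
  · -- `x + b / v` is within `|ρ| / v` of an integer
    have h1 : ((R + b.val : ℤ) : ZMod v) = 0 := by
      push_cast
      rw [ZMod.natCast_zmod_val]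
      exact h0
    obtain ⟨n, hn⟩ := (ZMod.intCast_zmod_eq_zero_iff_dvd _ _).mp h1
    have h2 : φ = ρ / v + n := by
      have h3 : (R : ℝ) + b.val = v * n := by exact_mod_cast hn
      rw [hφ, hρ]
      field_simp
      linarith
    have h3 : ∑ m ∈ range M, ex (m * φ) = ∑ m ∈ range M, ex (m * (ρ / v)) := by
      rw [h2, geo_int]
    have hv1 : (1 : ℝ) ≤ v := by
      exact_mod_cast Nat.pos_of_ne_zero (NeZero.ne v)
    have h4 : |ρ / v| ≤ 1 / 2 := by
      rw [abs_div, abs_of_pos hv0, div_le_iff₀ hv0]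
      linarith
    have h5 := geo h4 M
    rw [← h3, abs_div, abs_of_pos hv0] at h5
    have h6 : ‖∑ m ∈ range M, ex (m * φ)‖ ≤ 2 * (N : ℝ) / (1 + N * |ρ| / v) := by
      have h7 : 0 ≤ (N : ℝ) * |ρ| / v := by positivity
      rw [le_div_iff₀ (by linarith)]
      have h8 : (N : ℝ) * |ρ| / v = N * (|ρ| / v) := by ring
      rw [h8]
      have h9 : (0 : ℝ) ≤ N := by positivity
      nlinarith
    linarith
  · set n : ℤ := round φ with hn
    set w : ℤ := R + b.val - n * v with hw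
    have hwc : (w : ZMod v) = (R : ZMod v) + b := by
      rw [hw]
      push_cast
      rw [ZMod.natCast_zmod_val]
      simp
    have hwne : (w : ZMod v) ≠ 0 := by
      rw [hwc]
      exact h0
    have hw1 : (1 : ℝ) ≤ |(w : ℝ)| := by
      have h1 : w ≠ 0 := by
        intro h
        rw [h] at hwne
        simp at hwne
      have h2 : 1 ≤ |w| := Int.one_le_abs h1
      exact_mod_cast h2
    have h1 : φ - n = (w + ρ) / v := by
      rw [hφ, hw, hρ]
      push_cast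
      field_simp
      ring
    have h2 : |(w : ℝ)| / 2 / v ≤ |φ - n| := by
      rw [h1, abs_div, abs_of_pos hv0]
      apply div_le_div_of_nonneg_right _ hv0.le
      have := abs_sub_abs_le_abs_sub (w : ℝ) (-ρ)
      rw [abs_neg, sub_neg_eq_add] at this
      linarith
    have h3 := geo_round φ M
    have h4 := Gv_ge v w hwne
    rw [hwc] at h4
    rw [zero_add]
    refine le_trans ?_ h4
    rw [le_div_iff₀ (by linarith)]
    have h5 : ‖∑ m ∈ range M, ex (m * φ)‖ * (|(w : ℝ)| / 2 / v) ≤ 1 / 2 :=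
      le_trans (mul_le_mul_of_nonneg_left h2 (norm_nonneg _)) h3
    have h6 : ∀ X : ℝ, X * |(w : ℝ)| = 2 * v * (X * (|(w : ℝ)| / 2 / v)) := fun X => by
      field_simp
    rw [h6]
    nlinarith

end W92

open W92 in
theorem near : ∃ C : ℝ, 0 < C ∧ ∀ (N v : ℕ) (a : ℤ) (β x : ℝ), 1 ≤ N → 1 ≤ v →
    IsCoprime a (v : ℤ) →
    ‖∑ m ∈ range N, ex ((m : ℝ) ^ 2 * (a / v + β) + m * x)‖ ≤
      C * (1 + (N : ℝ) ^ 2 * |β|) / Real.sqrt v *
        (N / (1 + N * |v * x - round (v * x)| / v) + v * Real.log (2 * v)) := by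
  classical
  refine ⟨56, by norm_num, ?_⟩
  intro N v a β x hN hv ha
  have _ : NeZero v := ⟨by omega⟩
  have hv0 : (0 : ℝ) < v := by exact_mod_cast hv
  have hv1 : (1 : ℝ) ≤ v := by exact_mod_cast hv
  have hunit : IsUnit ((a : ℤ) : ZMod v) := (ZMod.coe_int_isUnit_iff_isCoprime a v).mpr ha.symm
  have hs : 0 < Real.sqrt v := Real.sqrt_pos.mpr hv0
  set R : ℤ := round (v * x) with hR
  set ρ : ℝ := v * x - R with hρ
  set T : ℝ := 1 + (N : ℝ) ^ 2 * |β| with hT
  have hT0 : 1 ≤ T := by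
    have : 0 ≤ (N : ℝ) ^ 2 * |β| := by positivity
    linarith
  -- expansion
  have h1 : ∑ m ∈ range N, ex ((m : ℝ) ^ 2 * (a / v + β) + m * x) =
      ∑ b : ZMod v, gam v a b * ∑ m ∈ range N, ex ((m : ℝ) ^ 2 * β + m * (x + b.val / v)) := by
    simp_rw [mul_sum]
    rw [sum_comm]
    refine sum_congr rfl fun m _ => ?_
    have h2 : ex ((m : ℝ) ^ 2 * (a / v + β) + m * x) =
        (ZMod.stdAddChar (((a : ℤ) : ZMod v) * (m : ZMod v) ^ 2) : ℂ) *
          ex ((m : ℝ) ^ 2 * β + m * x) := by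
      have h3 : ((a : ℤ) : ZMod v) * (m : ZMod v) ^ 2 = ((a * m ^ 2 : ℤ) : ZMod v) := by
        push_cast
        ring
      rw [h3, std_ex, ← ex_add]
      congr 1
      push_cast
      ring
    rw [h2, ← gam_inv, sum_mul]
    refine sum_congr rfl fun b _ => ?_
    rw [mul_assoc]
    congr 1
    have h4 : b * (m : ZMod v) = ((b.val * m : ℤ) : ZMod v) := by
      push_cast
      rw [ZMod.natCast_zmod_val]
    rw [h4, std_ex, ← ex_add]
    congr 1
    push_cast
    ring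
  rw [h1]
  -- termwise
  have h2 : ∀ b : ZMod v, ‖gam v a b * ∑ m ∈ range N, ex ((m : ℝ) ^ 2 * β +
      m * (x + b.val / v))‖ ≤ 2 / Real.sqrt v * (7 * T * ((if (R : ZMod v) + b = 0 then
        2 * (N : ℝ) / (1 + N * |ρ| / v) else 0) + Gv v ((R : ZMod v) + b))) := by
    intro b
    rw [norm_mul]
    apply mul_le_mul (gam_le v _ b hunit) _ (norm_nonneg _) (by positivity)
    have h3 := abel N β (x + b.val / v) _ fun M hM => inner N v x b M hM
    refine h3.trans ?_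
    apply mul_le_mul_of_nonneg_right
    · have hp := Real.pi_lt_d2
      have h4 : 0 ≤ (N : ℝ) ^ 2 * |β| := by positivity
      have h5 : 2 * Real.pi * ((N : ℝ) ^ 2 * |β|) ≤ 7 * ((N : ℝ) ^ 2 * |β|) := by
        apply mul_le_mul_of_nonneg_right _ h4
        linarith
      rw [hT]
      linarith
    · have h4 := Gv_nonneg v ((R : ZMod v) + b)
      have h5 : 0 ≤ (if (R : ZMod v) + b = 0 then
        2 * (N : ℝ) / (1 + N * |ρ| / v) else 0) := by
        split_ifs
        · positivity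
        · exact le_rfl
      exact add_nonneg h5 h4
  have h3 : ∑ b : ZMod v, ((if (R : ZMod v) + b = 0 then
        2 * (N : ℝ) / (1 + N * |ρ| / v) else 0) + Gv v ((R : ZMod v) + b)) ≤
      2 * (N : ℝ) / (1 + N * |ρ| / v) + 2 * v * (1 + Real.log v) := by
    have h4 : ∑ b : ZMod v, ((if (R : ZMod v) + b = 0 then
        2 * (N : ℝ) / (1 + N * |ρ| / v) else 0) + Gv v ((R : ZMod v) + b)) =
        ∑ c : ZMod v, ((if c = 0 then
        2 * (N : ℝ) / (1 + N * |ρ| / v) else 0) + Gv v c) :=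
      Equiv.sum_comp (Equiv.addLeft (R : ZMod v)) fun c => ((if c = 0 then
        2 * (N : ℝ) / (1 + N * |ρ| / v) else 0) + Gv v c)
    rw [h4, sum_add_distrib, sum_ite_eq']
    simp only [mem_univ, if_true]
    have := sum_Gv v
    linarith
  have hlog2 : 0.69 < Real.log 2 := by
    have := Real.log_two_gt_d9
    linarith
  have h5 : 1 + Real.log v ≤ 2 * Real.log (2 * v) := by
    rw [Real.log_mul (by norm_num) hv0.ne']
    have := Real.log_nonneg hv1
    linarith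
  have hlogv : 0 ≤ Real.log (2 * v) := Real.log_nonneg (by linarith)
  calc ‖∑ b : ZMod v, gam v a b * ∑ m ∈ range N, ex ((m : ℝ) ^ 2 * β + m * (x + b.val / v))‖
      ≤ ∑ b : ZMod v, 2 / Real.sqrt v * (7 * T * ((if (R : ZMod v) + b = 0 then
        2 * (N : ℝ) / (1 + N * |ρ| / v) else 0) + Gv v ((R : ZMod v) + b))) :=
        (norm_sum_le _ _).trans (sum_le_sum fun b _ => h2 b)
    _ = 2 / Real.sqrt v * (7 * T * ∑ b : ZMod v, ((if (R : ZMod v) + b = 0 then
        2 * (N : ℝ) / (1 + N * |ρ| / v) else 0) + Gv v ((R : ZMod v) + b))) := by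
        rw [mul_sum, mul_sum]
    _ ≤ 2 / Real.sqrt v * (7 * T * (2 * (N : ℝ) / (1 + N * |ρ| / v) +
        2 * v * (1 + Real.log v))) := by gcongr
    _ ≤ 2 / Real.sqrt v * (7 * T * (2 * (N : ℝ) / (1 + N * |ρ| / v) +
        2 * v * (2 * Real.log (2 * v)))) := by gcongr
    _ ≤ 2 / Real.sqrt v * (7 * T * (4 * ((N : ℝ) / (1 + N * |ρ| / v) +
        v * Real.log (2 * v)))) := by
        have h6 : 0 ≤ (N : ℝ) / (1 + N * |ρ| / v) := by positivity
        have h7 : 2 * (N : ℝ) / (1 + N * |ρ| / v) = 2 * ((N : ℝ) / (1 + N * |ρ| / v)) := by ring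
        have h8 : 2 * (N : ℝ) / (1 + N * |ρ| / v) + 2 * v * (2 * Real.log (2 * v)) ≤
            4 * ((N : ℝ) / (1 + N * |ρ| / v) + v * Real.log (2 * v)) := by
          rw [h7]
          have h9 : 0 ≤ v * Real.log (2 * v) := by positivity
          linarith
        gcongr
    _ = 56 * T / Real.sqrt v * ((N : ℝ) / (1 + N * |ρ| / v) + v * Real.log (2 * v)) := by ring

end Stz
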