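import Pool.Agent.Helper89.Stz.Defs

/-!
# MP_65a63f_an, C1: Weyl differencing

Quadratic exponential sums near a rational `a / v`.
-/

set_option autoImplicit false

namespace Stz

open Finset

namespace W92

lemma ex_add (x y : ℝ) : ex (x + y) = ex x * ex y := by
  unfold ex
  rw [← Complex.exp_add]
  congr 1
  push_cast
  ring

lemma norm_ex (x : ℝ) : ‖ex x‖ = 1 := by
  unfold ex
  have h : (2 * Real.pi * Complex.I * x : ℂ) = ((2 * Real.pi * x : ℝ) : ℂ) * Complex.I := by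
    push_cast
    ring
  rw [h, Complex.norm_exp_ofReal_mul_I]

lemma ex_int (n : ℤ) : ex (n : ℝ) = 1 := by
  unfold ex
  have h := Complex.exp_int_mul_two_pi_mul_I n
  rw [← h]
  congr 1
  push_cast
  ring

lemma conj_ex (x : ℝ) : (starRingEnd ℂ) (ex x) = ex (-x) := by
  unfold ex
  rw [← Complex.exp_conj]
  congr 1
  have h2 : (starRingEnd ℂ) (2 : ℂ) = 2 := Complex.conj_ofNat 2
  simp [h2]

lemma ex_nat_mul (m : ℕ) (x : ℝ) : ex (m * x) = ex x ^ m := by
  unfold ex
  rw [← Complex.exp_nat_mul]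
  congr 1
  push_cast
  ring

/-- chord versus arc -/
lemma four_le {t : ℝ} (ht : |t| ≤ 1 / 2) : 4 * |t| ≤ ‖1 - ex t‖ := by
  have h1 : ‖1 - ex t‖ = 2 * |Real.sin (Real.pi * t)| := by
    rw [norm_sub_rev]
    have h := Complex.norm_exp_I_mul_ofReal_sub_one (2 * Real.pi * t)
    have h2 : ex t = Complex.exp (Complex.I * ((2 * Real.pi * t : ℝ) : ℂ)) := by
      unfold ex
      congr 1
      push_cast
      ring
    rw [h2, h, Real.norm_eq_abs, abs_mul, abs_of_pos (by norm_num : (0 : ℝ) < 2)]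
    congr 3
    ring
  have h3 : |Real.sin (Real.pi * t)| = Real.sin (Real.pi * |t|) := by
    have hp := Real.pi_pos
    rcases le_total 0 t with h | h
    · rw [abs_of_nonneg h]
      rw [abs_of_nonneg]
      apply Real.sin_nonneg_of_nonneg_of_le_pi (by positivity)
      rw [abs_of_nonneg h] at ht
      nlinarith
    · rw [abs_of_nonpos h]
      rw [abs_of_nonpos h] at ht
      have h4 : Real.sin (Real.pi * -t) = -Real.sin (Real.pi * t) := by
        rw [mul_neg, Real.sin_neg]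
      rw [h4, abs_of_nonpos]
      have h5 : 0 ≤ Real.sin (Real.pi * -t) := by
        apply Real.sin_nonneg_of_nonneg_of_le_pi
        · exact mul_nonneg hp.le (by linarith)
        · nlinarith
      linarith
  have h6 : 2 / Real.pi * (Real.pi * |t|) ≤ Real.sin (Real.pi * |t|) := by
    have hp := Real.pi_pos
    apply Real.mul_le_sin (by positivity)
    nlinarith
  have h7 : 2 / Real.pi * (Real.pi * |t|) = 2 * |t| := by
    have hp := Real.pi_pos.ne'
    field_simp
  rw [h1, h3]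
  linarith

lemma geo {t : ℝ} (ht : |t| ≤ 1 / 2) (M : ℕ) :
    ‖∑ m ∈ range M, ex (m * t)‖ * |t| ≤ 1 / 2 := by
  have h1 : (1 - ex t) * ∑ m ∈ range M, ex (m * t) = 1 - ex t ^ M := by
    rw [← mul_neg_geom_sum]
    congr 1
    exact sum_congr rfl fun m _ => ex_nat_mul m t
  have h2 : ‖1 - ex t‖ * ‖∑ m ∈ range M, ex (m * t)‖ ≤ 2 := by
    rw [← norm_mul, h1]
    calc ‖1 - ex t ^ M‖ ≤ ‖(1 : ℂ)‖ + ‖ex t ^ M‖ := norm_sub_le _ _
      _ = 2 := by rw [norm_pow, norm_ex]; norm_num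
  have h3 := four_le ht
  have h4 := norm_nonneg (∑ m ∈ range M, ex (m * t))
  nlinarith

lemma geo_card (t : ℝ) (M : ℕ) : ‖∑ m ∈ range M, ex (m * t)‖ ≤ M := by
  calc ‖∑ m ∈ range M, ex (m * t)‖ ≤ ∑ m ∈ range M, ‖ex (m * t)‖ := norm_sum_le _ _
    _ = M := by simp [norm_ex]

/-- integer translations do not matter -/
lemma geo_int (t : ℝ) (n : ℤ) (M : ℕ) :
    ∑ m ∈ range M, ex (m * (t + n)) = ∑ m ∈ range M, ex (m * t) := by
  refine sum_congr rfl fun m _ => ?_
  have h : (m : ℝ) * (t + n) = m * t + ((m * n : ℤ) : ℝ) := by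
    push_cast
    ring
  rw [h, ex_add, ex_int, mul_one]

lemma geo_round (φ : ℝ) (M : ℕ) :
    ‖∑ m ∈ range M, ex (m * φ)‖ * |φ - round φ| ≤ 1 / 2 := by
  have h1 := geo (abs_sub_round φ) M
  have h2 := geo_int (φ - round φ) (round φ) M
  rw [sub_add_cancel] at h2
  rw [h2]
  exact h1

/-- differencing identity -/
lemma wdiff (c : ℕ → ℂ) (L : ℕ) :
    ‖∑ m ∈ range L, c m‖ ^ 2 = ∑ m ∈ range L, ‖c m‖ ^ 2 +
      2 * (∑ k ∈ range L, ∑ m ∈ range (L - 1 - k), c (m + k + 1) * (starRingEnd ℂ) (c m)).re := by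
  induction L with
  | zero => simp
  | succ L ih =>
    rw [sum_range_succ, sum_range_succ (fun m => ‖c m‖ ^ 2)]
    have h1 : ‖∑ m ∈ range L, c m + c L‖ ^ 2 = ‖∑ m ∈ range L, c m‖ ^ 2 + ‖c L‖ ^ 2 +
        2 * (c L * (starRingEnd ℂ) (∑ m ∈ range L, c m)).re := by
      rw [← Complex.normSq_eq_norm_sq, ← Complex.normSq_eq_norm_sq, ← Complex.normSq_eq_norm_sq,
        Complex.normSq_add]
      have h : ((∑ m ∈ range L, c m) * (starRingEnd ℂ) (c L)).re =
          (c L * (starRingEnd ℂ) (∑ m ∈ range L, c m)).re := by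
        rw [← Complex.conj_re, map_mul, Complex.conj_conj, mul_comm]
      rw [h]
    have h2 : ∑ k ∈ range (L + 1), ∑ m ∈ range (L + 1 - 1 - k),
        c (m + k + 1) * (starRingEnd ℂ) (c m) =
        ∑ k ∈ range L, ∑ m ∈ range (L - 1 - k), c (m + k + 1) * (starRingEnd ℂ) (c m) +
        c L * (starRingEnd ℂ) (∑ m ∈ range L, c m) := by
      rw [sum_range_succ]
      have h3 : ∑ m ∈ range (L + 1 - 1 - L), c (m + L + 1) * (starRingEnd ℂ) (c m) = 0 := by
        simp
      rw [h3, add_zero]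
      have h4 : c L * (starRingEnd ℂ) (∑ m ∈ range L, c m) =
          ∑ k ∈ range L, c L * (starRingEnd ℂ) (c (L - 1 - k)) := by
        rw [map_sum, mul_sum]
        exact (sum_range_reflect (fun m => c L * (starRingEnd ℂ) (c m)) L).symm
      rw [h4, ← sum_add_distrib]
      refine sum_congr rfl fun k hk => ?_
      have hk' : k < L := mem_range.mp hk
      have h5 : L + 1 - 1 - k = (L - 1 - k) + 1 := by omega
      rw [h5, sum_range_succ]
      have h6 : L - 1 - k + k + 1 = L := by omega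
      rw [h6]
    rw [h1, ih, h2, Complex.add_re]
    ring

lemma wdiff_le (c : ℕ → ℂ) (hc : ∀ m, ‖c m‖ = 1) (L : ℕ) :
    ‖∑ m ∈ range L, c m‖ ^ 2 ≤ L +
      2 * ∑ k ∈ range L, ‖∑ m ∈ range (L - 1 - k), c (m + k + 1) * (starRingEnd ℂ) (c m)‖ := by
  rw [wdiff]
  have h1 : ∑ m ∈ range L, ‖c m‖ ^ 2 = L := by simp [hc]
  rw [h1]
  have h2 := (Complex.re_le_norm (∑ k ∈ range L, ∑ m ∈ range (L - 1 - k),
    c (m + k + 1) * (starRingEnd ℂ) (c m))).trans (norm_sum_le _ _)
  linarith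

/-! ### The reciprocal sum -/

/-- `v / c + v / (v - c)` for `c ≠ 0`, and `0` for `c = 0` -/
noncomputable def Gv (v : ℕ) (c : ZMod v) : ℝ := (v : ℝ) / c.val + (v : ℝ) / (-c).val

lemma Gv_nonneg (v : ℕ) (c : ZMod v) : 0 ≤ Gv v c := by
  unfold Gv
  positivity

lemma Gv_ge (v : ℕ) [NeZero v] (u : ℤ) (hu : (u : ZMod v) ≠ 0) :
    (v : ℝ) / |(u : ℝ)| ≤ Gv v (u : ZMod v) := by
  have key : ∀ w : ℤ, 0 ≤ w → (w : ZMod v) ≠ 0 → (v : ℝ) / |(w : ℝ)| ≤
      (v : ℝ) / ((w : ZMod v)).val := by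
    intro w hw hw0
    have h1 : (((w : ZMod v)).val : ℤ) = w % v := ZMod.val_intCast w
    have h2 : w % v ≤ w := by
      have h3 := Int.emod_add_mul_ediv w v
      have h4 : 0 ≤ w / (v : ℤ) := Int.ediv_nonneg hw (by positivity)
      have h5 : 0 ≤ (v : ℤ) * (w / (v : ℤ)) := mul_nonneg (by positivity) h4
      linarith
    have h3 : 0 < ((w : ZMod v)).val := by
      rcases Nat.eq_zero_or_pos ((w : ZMod v)).val with h | h
      · exact absurd ((ZMod.val_eq_zero _).mp h) hw0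
      · exact h
    have h4 : (((w : ZMod v)).val : ℝ) ≤ |(w : ℝ)| := by
      have h5 : ((((w : ZMod v)).val : ℤ) : ℝ) ≤ (w : ℝ) := by
        rw [h1]
        exact_mod_cast h2
      rw [abs_of_nonneg (by exact_mod_cast hw)]
      exact_mod_cast h5
    apply div_le_div_of_nonneg_left (by positivity) (by exact_mod_cast h3) h4
  unfold Gv
  rcases le_total 0 u with h | h
  · have h1 := key u h hu
    have h2 : 0 ≤ (v : ℝ) / ((-(u : ZMod v))).val := by positivity
    linarith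
  · have h1 := key (-u) (by linarith) (by
      push_cast
      simpa using hu)
    have h2 : 0 ≤ (v : ℝ) / ((u : ZMod v)).val := by positivity
    have h3 : |((-u : ℤ) : ℝ)| = |(u : ℝ)| := by
      push_cast
      exact abs_neg _
    have h4 : ((-u : ℤ) : ZMod v) = -(u : ZMod v) := by push_cast; rfl
    rw [h3, h4] at h1
    linarith

lemma sum_range_zmod (v : ℕ) [NeZero v] (f : ZMod v → ℝ) :
    ∑ r ∈ range v, f (r : ZMod v) = ∑ c : ZMod v, f c := by
  refine sum_bij (fun r _ => (r : ZMod v)) (fun _ _ => mem_univ _) ?_ ?_ (fun _ _ => rfl)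
  · intro a ha b hb h
    have h1 := congrArg ZMod.val h
    rwa [ZMod.val_cast_of_lt (mem_range.mp ha), ZMod.val_cast_of_lt (mem_range.mp hb)] at h1
  · intro c _
    exact ⟨c.val, mem_range.mpr (ZMod.val_lt c), ZMod.natCast_zmod_val c⟩

lemma sum_range_mul_zmod (v Q : ℕ) [NeZero v] (f : ZMod v → ℝ) :
    ∑ r ∈ range (v * Q), f (r : ZMod v) = Q * ∑ c : ZMod v, f c := by
  induction Q with
  | zero => simp
  | succ Q ih =>
    rw [Nat.mul_succ, sum_range_add, ih]
    have h : ∑ x ∈ range v, f ((v * Q + x : ℕ) : ZMod v) = ∑ c : ZMod v, f c := by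
      rw [← sum_range_zmod]
      refine sum_congr rfl fun x _ => ?_
      congr 1
      push_cast
      simp
    rw [h]
    push_cast
    ring

lemma sum_Gv (v : ℕ) [NeZero v] : ∑ c : ZMod v, Gv v c ≤ 2 * v * (1 + Real.log v) := by
  have h1 : ∑ c : ZMod v, Gv v c = 2 * ∑ c : ZMod v, (v : ℝ) / c.val := by
    unfold Gv
    rw [sum_add_distrib]
    have h2 : ∑ c : ZMod v, (v : ℝ) / (-c).val = ∑ c : ZMod v, (v : ℝ) / c.val :=
      Equiv.sum_comp (Equiv.neg (ZMod v)) fun c => (v : ℝ) / c.val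
    rw [h2]
    ring
  have h3 : ∑ c : ZMod v, (v : ℝ) / c.val = ∑ r ∈ range v, (v : ℝ) / r := by
    rw [← sum_range_zmod v fun c => (v : ℝ) / c.val]
    refine sum_congr rfl fun r hr => ?_
    rw [ZMod.val_cast_of_lt (mem_range.mp hr)]
  have hv : 0 < v := Nat.pos_of_ne_zero (NeZero.ne v)
  have h4 : ∑ r ∈ range v, (v : ℝ) / r ≤ v * (1 + Real.log v) := by
    obtain ⟨w, rfl⟩ : ∃ w, v = w + 1 := ⟨v - 1, by omega⟩
    rw [sum_range_succ']
    have h5 : ∑ k ∈ range w, ((w + 1 : ℕ) : ℝ) / ((k + 1 : ℕ) : ℝ) =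
        ((w + 1 : ℕ) : ℝ) * (harmonic w : ℝ) := by
      unfold harmonic
      push_cast
      rw [mul_sum]
      exact sum_congr rfl fun k _ => by rw [div_eq_mul_inv]
    rw [h5]
    have h6 := harmonic_le_one_add_log w
    have h7 : Real.log w ≤ Real.log ((w + 1 : ℕ) : ℝ) := by
      rcases Nat.eq_zero_or_pos w with h | h
      · subst h
        simp
      · apply Real.log_le_log (by exact_mod_cast h)
        push_cast
        linarith
    have h8 : (0 : ℝ) ≤ ((w + 1 : ℕ) : ℝ) := by positivity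
    have h9 : ((w + 1 : ℕ) : ℝ) / ((0 : ℕ) : ℝ) = 0 := by simp
    rw [h9, add_zero]
    exact mul_le_mul_of_nonneg_left (by linarith) h8
  rw [h1, h3]
  linarith

lemma sum_Gv_mul (v : ℕ) [NeZero v] (a : ℤ) (ha : IsCoprime a (v : ℤ)) (M : ℕ) :
    ∑ j ∈ range M, Gv v (((j * a : ℤ)) : ZMod v) ≤
      2 * (M + v) * (1 + Real.log v) := by
  have hv : 0 < v := Nat.pos_of_ne_zero (NeZero.ne v)
  have hv1 : (1 : ℝ) ≤ v := by exact_mod_cast hv
  have hunit : IsUnit ((a : ℤ) : ZMod v) := (ZMod.coe_int_isUnit_iff_isCoprime a v).mpr ha.symm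
  obtain ⟨w, hw⟩ := hunit
  have h1 : ∑ j ∈ range M, Gv v (((j * a : ℤ)) : ZMod v) ≤
      ∑ j ∈ range (v * (M / v + 1)), Gv v (((j * a : ℤ)) : ZMod v) := by
    apply sum_le_sum_of_subset_of_nonneg
    · apply range_subset_range.mpr
      have := Nat.lt_mul_div_succ M hv
      omega
    · intro i _ _
      exact Gv_nonneg _ _
  have h2 : ∑ j ∈ range (v * (M / v + 1)), Gv v (((j * a : ℤ)) : ZMod v) =
      ((M / v + 1 : ℕ) : ℝ) * ∑ c : ZMod v, Gv v (c * a) := by
    rw [← sum_range_mul_zmod v _ fun c => Gv v (c * a)]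
    refine sum_congr rfl fun j _ => ?_
    congr 1
    push_cast
    ring
  have h3 : ∑ c : ZMod v, Gv v (c * a) = ∑ c : ZMod v, Gv v c := by
    rw [← hw]
    exact Equiv.sum_comp (Units.mulRight w) fun c => Gv v c
  have h4 := sum_Gv v
  have h5 : ((M / v + 1 : ℕ) : ℝ) * v ≤ M + v := by
    have h6 : (M / v) * v ≤ M := Nat.div_mul_le_self M v
    have h7 : (((M / v + 1) * v : ℕ) : ℝ) ≤ ((M + v : ℕ) : ℝ) := by
      exact_mod_cast (by nlinarith)
    push_cast at h7
    push_cast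
    exact h7
  have h8 : 0 ≤ 1 + Real.log v := by
    have := Real.log_nonneg hv1
    linarith
  calc ∑ j ∈ range M, Gv v (((j * a : ℤ)) : ZMod v)
      ≤ ((M / v + 1 : ℕ) : ℝ) * ∑ c : ZMod v, Gv v c := by
        rw [← h3, ← h2]
        exact h1
    _ ≤ ((M / v + 1 : ℕ) : ℝ) * (2 * v * (1 + Real.log v)) :=
        mul_le_mul_of_nonneg_left h4 (by positivity)
    _ = 2 * (((M / v + 1 : ℕ) : ℝ) * v) * (1 + Real.log v) := by ring
    _ ≤ 2 * (M + v) * (1 + Real.log v) := by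
        apply mul_le_mul_of_nonneg_right _ h8
        linarith

/-! ### The sum of `k ^ (-2 / 3)` -/

lemma sum_rpow (K : ℕ) :
    ∑ k ∈ range K, ((k : ℝ) + 1) ^ (-(2 / 3) : ℝ) ≤ 3 * (K : ℝ) ^ (1 / 3 : ℝ) := by
  induction K with
  | zero => simp
  | succ K ih =>
    rw [sum_range_succ]
    set u : ℝ := ((K : ℝ) + 1) ^ (1 / 3 : ℝ) with hu
    set w : ℝ := (K : ℝ) ^ (1 / 3 : ℝ) with hw
    have hK1 : (0 : ℝ) < (K : ℝ) + 1 := by positivity
    have hu0 : 0 < u := Real.rpow_pos_of_pos hK1 _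
    have hw0 : 0 ≤ w := Real.rpow_nonneg (by positivity) _
    have hu3 : u ^ 3 = (K : ℝ) + 1 := by
      rw [hu, ← Real.rpow_natCast, ← Real.rpow_mul hK1.le]
      norm_num
    have hw3 : w ^ 3 = (K : ℝ) := by
      rw [hw, ← Real.rpow_natCast, ← Real.rpow_mul (by positivity)]
      norm_num
    have h1 : ((K : ℝ) + 1) ^ (-(2 / 3) : ℝ) = 1 / u ^ 2 := by
      rw [hu, ← Real.rpow_natCast, ← Real.rpow_mul hK1.le, Real.rpow_neg hK1.le, one_div]
      norm_num
    have hwu : w ≤ u := by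
      rw [hu, hw]
      exact Real.rpow_le_rpow (by positivity) (by linarith) (by norm_num)
    have h2 : 1 / u ^ 2 ≤ 3 * (u - w) := by
      rw [div_le_iff₀ (by positivity)]
      have h3 : (u - w) * (u ^ 2 + u * w + w ^ 2) = 1 := by
        have : (u - w) * (u ^ 2 + u * w + w ^ 2) = u ^ 3 - w ^ 3 := by ring
        rw [this, hu3, hw3]
        ring
      have h4 : (u - w) * (u ^ 2 + u * w + w ^ 2) ≤ (u - w) * (3 * u ^ 2) := by
        apply mul_le_mul_of_nonneg_left _ (by linarith)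
        nlinarith
      nlinarith
    rw [h1]
    push_cast
    rw [← hu]
    linarith

/-- the main term of the differenced sum -/
lemma main_sum (L v : ℕ) (hL : 1 ≤ L) (hv : 1 ≤ v) (b : ℝ) (hb : 0 ≤ b) :
    ∑ k ∈ range (2 * L / v), 2 * (L : ℝ) / (1 + 2 * L * (v * (k + 1)) * b) ≤
      12 * ((L : ℝ) ^ 2 / v * (1 + (L : ℝ) ^ 2 * b) ^ (-(2 / 3) : ℝ)) := by
  have hL0 : (0 : ℝ) < L := by exact_mod_cast hL
  have hv0 : (0 : ℝ) < v := by exact_mod_cast hv
  set K := 2 * L / v with hK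
  set s : ℝ := (L : ℝ) ^ 2 * b with hs
  have hs0 : 0 ≤ s := by positivity
  have h1s : 0 < 1 + s := by linarith
  have hterm : ∀ k ∈ range K, 2 * (L : ℝ) / (1 + 2 * L * (v * (k + 1)) * b) ≤
      2 * L * ((2 * L / v) ^ (2 / 3 : ℝ) * (1 + s) ^ (-(2 / 3) : ℝ)) *
        ((k : ℝ) + 1) ^ (-(2 / 3) : ℝ) := by
    intro k hk
    have hk1 : k + 1 ≤ K := mem_range.mp hk
    have hk2 : v * (k + 1) ≤ 2 * L := by
      have h := Nat.mul_le_mul_left v hk1
      exact h.trans (Nat.mul_div_le _ _)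
    have hk3 : (v : ℝ) * (k + 1) ≤ 2 * L := by exact_mod_cast hk2
    set κ : ℝ := (v : ℝ) * (k + 1) / (2 * L) with hκ
    have hκ0 : 0 < κ := by positivity
    have hκ1 : κ ≤ 1 := by
      rw [hκ, div_le_one (by positivity)]
      exact hk3
    set z : ℝ := 1 + 2 * L * (v * (k + 1)) * b with hz
    have hz1 : 1 ≤ z := by
      have : 0 ≤ 2 * (L : ℝ) * (v * (k + 1)) * b := by positivity
      linarith
    have hzy : κ * (1 + s) ≤ z := by
      have h1 : 2 * (L : ℝ) * (v * (k + 1)) * b = κ * (4 * s) := by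
        rw [hκ, hs]
        field_simp
        ring
      rw [hz, h1]
      have h2 : 0 ≤ κ * s := by positivity
      nlinarith
    have hz2 : 1 / z ≤ (κ * (1 + s)) ^ (-(2 / 3) : ℝ) := by
      calc 1 / z = z ^ (-1 : ℝ) := by rw [Real.rpow_neg_one, one_div]
        _ ≤ z ^ (-(2 / 3) : ℝ) := Real.rpow_le_rpow_of_exponent_le hz1 (by norm_num)
        _ ≤ (κ * (1 + s)) ^ (-(2 / 3) : ℝ) :=
            Real.rpow_le_rpow_of_nonpos (by positivity) hzy (by norm_num)
    have h3 : (κ * (1 + s)) ^ (-(2 / 3) : ℝ) =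
        (2 * L / v) ^ (2 / 3 : ℝ) * (1 + s) ^ (-(2 / 3) : ℝ) * ((k : ℝ) + 1) ^ (-(2 / 3) : ℝ) := by
      rw [Real.mul_rpow hκ0.le h1s.le]
      have h4 : κ = (2 * L / v : ℝ)⁻¹ * (k + 1) := by
        rw [hκ]
        field_simp
      rw [h4, Real.mul_rpow (by positivity) (by positivity), Real.inv_rpow (by positivity),
        ← Real.rpow_neg (by positivity), neg_neg]
      ring
    have h5 : 2 * (L : ℝ) / z = 2 * L * (1 / z) := by ring
    rw [h5]
    rw [h3] at hz2
    have h6 := mul_le_mul_of_nonneg_left hz2 (by positivity : (0 : ℝ) ≤ 2 * L)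
    linarith
  calc ∑ k ∈ range K, 2 * (L : ℝ) / (1 + 2 * L * (v * (k + 1)) * b)
      ≤ ∑ k ∈ range K, 2 * L * ((2 * L / v) ^ (2 / 3 : ℝ) * (1 + s) ^ (-(2 / 3) : ℝ)) *
        ((k : ℝ) + 1) ^ (-(2 / 3) : ℝ) := sum_le_sum hterm
    _ = 2 * L * ((2 * L / v) ^ (2 / 3 : ℝ) * (1 + s) ^ (-(2 / 3) : ℝ)) *
        ∑ k ∈ range K, ((k : ℝ) + 1) ^ (-(2 / 3) : ℝ) := by rw [mul_sum]
    _ ≤ 2 * L * ((2 * L / v) ^ (2 / 3 : ℝ) * (1 + s) ^ (-(2 / 3) : ℝ)) *
        (3 * (2 * L / v) ^ (1 / 3 : ℝ)) := by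
        apply mul_le_mul_of_nonneg_left _ (by positivity)
        refine (sum_rpow K).trans ?_
        apply mul_le_mul_of_nonneg_left _ (by norm_num)
        apply Real.rpow_le_rpow (by positivity) _ (by norm_num)
        rw [hK, le_div_iff₀ hv0]
        exact_mod_cast Nat.div_mul_le_self (2 * L) v
    _ = 6 * L * ((2 * L / v) ^ (2 / 3 : ℝ) * (2 * L / v) ^ (1 / 3 : ℝ)) *
        (1 + s) ^ (-(2 / 3) : ℝ) := by ring
    _ = 12 * ((L : ℝ) ^ 2 / v * (1 + s) ^ (-(2 / 3) : ℝ)) := by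
        rw [← Real.rpow_add (by positivity)]
        norm_num
        ring

/-- bound for the sum with phase `j (a / v + β)`, `v ∤ j` -/
lemma lin_bound (N v j M : ℕ) (a : ℤ) (β : ℝ) (hv : 1 ≤ v) (hN : 1 ≤ N) (ha : IsCoprime a (v : ℤ))
    (hβ : |β| * (8 * v * N) ≤ 1) (hj : j ≤ 2 * N) (hvj : ¬ v ∣ j) :
    ‖∑ m ∈ range M, ex (m * (j * (a / v + β)))‖ ≤ Gv v (((j * a : ℤ)) : ZMod v) := by
  have _ : NeZero v := ⟨by omega⟩
  have hv0 : (0 : ℝ) < v := by exact_mod_cast hv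
  have hN0 : (0 : ℝ) < N := by exact_mod_cast hN
  set φ : ℝ := j * (a / v + β) with hφ
  set n : ℤ := round φ with hn
  set u : ℤ := j * a - n * v with hu
  have hucast : (u : ZMod v) = ((j * a : ℤ) : ZMod v) := by
    rw [hu]
    push_cast
    simp
  have hne : (u : ZMod v) ≠ 0 := by
    rw [hucast]
    intro h
    have h1 : (v : ℤ) ∣ j * a := (ZMod.intCast_zmod_eq_zero_iff_dvd _ _).mp h
    have h2 : (v : ℤ) ∣ j := ha.symm.dvd_of_dvd_mul_right h1
    exact hvj (by exact_mod_cast h2)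
  have hu1 : (1 : ℝ) ≤ |(u : ℝ)| := by
    have h1 : u ≠ 0 := by
      intro h
      rw [h] at hne
      simp at hne
    have h2 : 1 ≤ |u| := Int.one_le_abs h1
    exact_mod_cast h2
  have hjβ : |j * β| ≤ 1 / (4 * v) := by
    rw [abs_mul, abs_of_nonneg (by positivity : (0 : ℝ) ≤ j), le_div_iff₀ (by positivity)]
    have h1 : (j : ℝ) ≤ 2 * N := by exact_mod_cast hj
    have h2 := abs_nonneg β
    calc (j : ℝ) * |β| * (4 * v) ≤ (2 * N) * |β| * (4 * v) := by gcongr
      _ = |β| * (8 * v * N) := by ring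
      _ ≤ 1 := hβ
  have h1 : φ - n = u / v + j * β := by
    rw [hφ, hu]
    push_cast
    field_simp
    ring
  have h2 : 3 / 4 * (|(u : ℝ)| / v) ≤ |φ - n| := by
    rw [h1]
    have h3 : |(u : ℝ) / v| ≤ |u / v + j * β| + |j * β| := by
      have := abs_sub_abs_le_abs_sub ((u : ℝ) / v) (-(j * β))
      rw [abs_neg, sub_neg_eq_add] at this
      linarith
    have h4 : |(u : ℝ) / v| = |(u : ℝ)| / v := by rw [abs_div, abs_of_pos hv0]
    have h5 : 1 / (4 * (v : ℝ)) ≤ 1 / 4 * (|(u : ℝ)| / v) := by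
      rw [div_le_iff₀ (by positivity)]
      field_simp
      linarith
    linarith
  have h3 := geo_round φ M
  have h4 := Gv_ge v u hne
  rw [hucast] at h4
  refine le_trans ?_ h4
  rw [le_div_iff₀ (by linarith)]
  have h5 : 0 < |(u : ℝ)| / v := by positivity
  have h6 : ‖∑ m ∈ range M, ex (m * φ)‖ * (3 / 4 * (|(u : ℝ)| / v)) ≤ 1 / 2 :=
    le_trans (mul_le_mul_of_nonneg_left h2 (norm_nonneg _)) h3
  have h7 : ∀ X : ℝ, X * |(u : ℝ)| = v * (X * (|(u : ℝ)| / v)) := fun X => by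
    field_simp
  rw [h7]
  have h8 : ‖∑ m ∈ range M, ex (m * φ)‖ * (|(u : ℝ)| / v) ≤ 1 := by linarith
  nlinarith

/-- bound for the sum with phase `j (a / v + β)`, `v ∣ j` -/
lemma dvd_bound (N v j M L : ℕ) (a : ℤ) (β : ℝ) (hv : 1 ≤ v) (hN : 1 ≤ N)
    (hβ : |β| * (8 * v * N) ≤ 1) (hj : j ≤ 2 * N) (hvj : v ∣ j) (hM : M ≤ L) :
    ‖∑ m ∈ range M, ex (m * (j * (a / v + β)))‖ ≤ 2 * L / (1 + 2 * L * j * |β|) := by
  have hv0 : (0 : ℝ) < v := by exact_mod_cast hv
  have hv1 : (1 : ℝ) ≤ v := by exact_mod_cast hv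
  have hN0 : (0 : ℝ) < N := by exact_mod_cast hN
  obtain ⟨k, rfl⟩ := hvj
  have h1 : ((v * k : ℕ) : ℝ) * (a / v + β) = ((v * k : ℕ) : ℝ) * β + ((k * a : ℤ) : ℝ) := by
    push_cast
    field_simp
    ring
  rw [h1, geo_int]
  set t : ℝ := ((v * k : ℕ) : ℝ) * β with ht
  have htabs : |t| = ((v * k : ℕ) : ℝ) * |β| := by
    rw [ht, abs_mul, abs_of_nonneg (by positivity : (0 : ℝ) ≤ ((v * k : ℕ) : ℝ))]
  have ht2 : |t| ≤ 1 / 2 := by
    rw [htabs]
    have h2 : ((v * k : ℕ) : ℝ) ≤ 2 * N := by exact_mod_cast hj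
    have h3 := abs_nonneg β
    have h4 : (2 * (N : ℝ)) * |β| * 1 ≤ 2 * N * |β| * v := by
      apply mul_le_mul_of_nonneg_left hv1 (by positivity)
    calc ((v * k : ℕ) : ℝ) * |β| ≤ (2 * N) * |β| := by gcongr
      _ ≤ 2 * N * |β| * v := by linarith
      _ = 1 / 4 * (|β| * (8 * v * N)) := by ring
      _ ≤ 1 / 2 := by linarith
  have h2 := geo ht2 M
  have h3 := geo_card t M
  have h4 : (M : ℝ) ≤ L := by exact_mod_cast hM
  have h5 : 2 * (L : ℝ) * ((v * k : ℕ) : ℝ) * |β| = 2 * L * |t| := by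
    rw [htabs]
    ring
  rw [h5]
  have h6 : 0 ≤ 2 * (L : ℝ) * |t| := by positivity
  rw [le_div_iff₀ (by linarith)]
  have h7 : (0 : ℝ) ≤ L := by positivity
  nlinarith [norm_nonneg (∑ m ∈ range M, ex (m * t))]

end W92

open W92 in
theorem weyl : ∃ C : ℝ, 0 < C ∧ ∀ (N L v : ℕ) (a : ℤ) (β x : ℝ), 1 ≤ L → L ≤ N → 1 ≤ v →
    v ≤ 8 * N → IsCoprime a (v : ℤ) → |β| * (8 * v * N) ≤ 1 →
    ‖∑ m ∈ range L, ex ((m : ℝ) ^ 2 * (a / v + β) + m * x)‖ ^ 2 ≤
      C * ((L : ℝ) ^ 2 / v * (1 + (L : ℝ) ^ 2 * |β|) ^ (-(2 / 3) : ℝ) + N * Real.log (2 * N)) := by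
  refine ⟨202, by norm_num, ?_⟩
  intro N L v a β x hL hLN hv hvN ha hβ
  have hN : 1 ≤ N := hL.trans hLN
  have _ : NeZero v := ⟨by omega⟩
  have hL0 : (0 : ℝ) < L := by exact_mod_cast hL
  have hv0 : (0 : ℝ) < v := by exact_mod_cast hv
  have hN1 : (1 : ℝ) ≤ N := by exact_mod_cast hN
  have hLN' : (L : ℝ) ≤ N := by exact_mod_cast hLN
  have hvN' : (v : ℝ) ≤ 8 * N := by exact_mod_cast hvN
  set θ : ℝ := a / v + β with hθ
  have h0 := wdiff_le (fun m => ex ((m : ℝ) ^ 2 * θ + m * x)) (fun m => norm_ex _) L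
  -- each differenced sum
  have h1 : ∀ k ∈ range L, ‖∑ m ∈ range (L - 1 - k), ex (((m + k + 1 : ℕ) : ℝ) ^ 2 * θ +
      ((m + k + 1 : ℕ) : ℝ) * x) * (starRingEnd ℂ) (ex ((m : ℝ) ^ 2 * θ + m * x))‖ ≤
      (if v ∣ 2 * (k + 1) then 2 * (L : ℝ) / (1 + 2 * L * ((2 * (k + 1) : ℕ) : ℝ) * |β|) else 0) +
        Gv v ((((2 * (k + 1) : ℕ) : ℤ) * a : ℤ) : ZMod v) := by
    intro k hk
    have hk' : k < L := mem_range.mp hk
    have h2 : ∑ m ∈ range (L - 1 - k), ex (((m + k + 1 : ℕ) : ℝ) ^ 2 * θ +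
      ((m + k + 1 : ℕ) : ℝ) * x) * (starRingEnd ℂ) (ex ((m : ℝ) ^ 2 * θ + m * x)) =
        ex (((k : ℝ) + 1) ^ 2 * θ + ((k : ℝ) + 1) * x) *
          ∑ m ∈ range (L - 1 - k), ex (m * (((2 * (k + 1) : ℕ) : ℝ) * (a / v + β))) := by
      rw [mul_sum]
      refine sum_congr rfl fun m _ => ?_
      rw [conj_ex, ← ex_add, ← ex_add, ← hθ]
      congr 1
      push_cast
      ring
    rw [h2, norm_mul, norm_ex, one_mul]
    have hG := Gv_nonneg v ((((2 * (k + 1) : ℕ) : ℤ) * a : ℤ) : ZMod v)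
    split_ifs with hd
    · have h3 := dvd_bound N v (2 * (k + 1)) (L - 1 - k) L a β hv hN hβ (by omega) hd (by omega)
      linarith
    · have h3 := lin_bound N v (2 * (k + 1)) (L - 1 - k) a β hv hN ha hβ (by omega) hd
      linarith
  have h2 : ∑ k ∈ range L, ((if v ∣ 2 * (k + 1) then
      2 * (L : ℝ) / (1 + 2 * L * ((2 * (k + 1) : ℕ) : ℝ) * |β|) else 0) +
        Gv v ((((2 * (k + 1) : ℕ) : ℤ) * a : ℤ) : ZMod v)) ≤
      12 * ((L : ℝ) ^ 2 / v * (1 + (L : ℝ) ^ 2 * |β|) ^ (-(2 / 3) : ℝ)) +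
        2 * (((2 * L + 1 : ℕ) : ℝ) + v) * (1 + Real.log v) := by
    rw [sum_add_distrib]
    apply add_le_add
    · refine le_trans ?_ (main_sum L v hL hv |β| (abs_nonneg β))
      rw [← sum_filter]
      -- reindex by `2 (k + 1) = v (i + 1)`
      refine le_trans (le_of_eq ?_) (sum_le_sum_of_subset_of_nonneg
        (s := ((range L).filter fun k => v ∣ 2 * (k + 1)).image fun k => 2 * (k + 1) / v - 1)
        ?_ ?_)
      · rw [sum_image]
        · refine sum_congr rfl fun k hk => ?_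
          rw [mem_filter] at hk
          obtain ⟨c, hc⟩ := hk.2
          have hc0 : 1 ≤ c := by
            rcases Nat.eq_zero_or_pos c with h | h
            · subst h
              omega
            · exact h
          have h3 : 2 * (k + 1) / v - 1 = c - 1 := by
            rw [hc, Nat.mul_div_cancel_left c (by omega)]
          rw [h3]
          have h4 : (((c - 1 : ℕ) : ℝ) + 1) = c := by
            rw [Nat.cast_sub hc0]
            push_cast
            ring
          rw [h4, hc]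
          push_cast
          rfl
        · intro k hk k' hk' he
          rw [Finset.mem_coe, mem_filter] at hk hk'
          obtain ⟨c, hc⟩ := hk.2
          obtain ⟨c', hc'⟩ := hk'.2
          simp only at he
          rw [hc, hc', Nat.mul_div_cancel_left c (by omega),
            Nat.mul_div_cancel_left c' (by omega)] at he
          have hc0 : 1 ≤ c := by
            rcases Nat.eq_zero_or_pos c with h | h
            · subst h
              omega
            · exact h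
          have hc0' : 1 ≤ c' := by
            rcases Nat.eq_zero_or_pos c' with h | h
            · subst h
              omega
            · exact h
          have h5 : c = c' := by omega
          rw [h5] at hc
          omega
      · intro i hi
        rw [mem_image] at hi
        obtain ⟨k, hk, rfl⟩ := hi
        rw [mem_filter, mem_range] at hk
        rw [mem_range]
        obtain ⟨c, hc⟩ := hk.2
        have hc0 : 1 ≤ c := by
          rcases Nat.eq_zero_or_pos c with h | h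
          · subst h
            omega
          · exact h
        rw [hc, Nat.mul_div_cancel_left c (by omega)]
        have h6 : c ≤ 2 * L / v := by
          rw [Nat.le_div_iff_mul_le (by omega)]
          have : v * c ≤ 2 * L := by omega
          linarith [Nat.mul_comm c v]
        omega
      · intro i _ _
        positivity
    · refine le_trans ?_ (sum_Gv_mul v a ha (2 * L + 1))
      refine le_trans (le_of_eq ?_) (sum_le_sum_of_subset_of_nonneg
        (s := (range L).image fun k => 2 * (k + 1)) ?_ ?_)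
      · rw [sum_image]
        intro k _ k' _ he
        simp only at he
        omega
      · intro i hi
        rw [mem_image] at hi
        obtain ⟨k, hk, rfl⟩ := hi
        rw [mem_range] at hk
        rw [mem_range]
        omega
      · intro i _ _
        exact Gv_nonneg _ _
  have h3 : ∑ k ∈ range L, ‖∑ m ∈ range (L - 1 - k), ex (((m + k + 1 : ℕ) : ℝ) ^ 2 * θ +
      ((m + k + 1 : ℕ) : ℝ) * x) * (starRingEnd ℂ) (ex ((m : ℝ) ^ 2 * θ + m * x))‖ ≤
      12 * ((L : ℝ) ^ 2 / v * (1 + (L : ℝ) ^ 2 * |β|) ^ (-(2 / 3) : ℝ)) +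
        2 * (((2 * L + 1 : ℕ) : ℝ) + v) * (1 + Real.log v) := (sum_le_sum h1).trans h2
  have hlog2 : 0.69 < Real.log 2 := by
    have := Real.log_two_gt_d9
    linarith
  have hlogN : Real.log 2 ≤ Real.log (2 * N) :=
    Real.log_le_log (by norm_num) (by linarith)
  have hlogv : Real.log v ≤ 3 * Real.log (2 * N) := by
    have h4 : Real.log v ≤ Real.log (8 * N) := Real.log_le_log hv0 hvN'
    have h5 : Real.log (8 * N) = 2 * Real.log 2 + Real.log (2 * N) := by
      have h6 : (8 * N : ℝ) = 2 ^ 2 * (2 * N) := by ring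
      rw [h6, Real.log_mul (by norm_num) (by positivity), Real.log_pow]
      norm_num
    linarith
  have h4 : 2 * (((2 * L + 1 : ℕ) : ℝ) + v) * (1 + Real.log v) ≤ 100 * (N * Real.log (2 * N)) := by
    have h5 : ((2 * L + 1 : ℕ) : ℝ) + v ≤ 11 * N := by
      push_cast
      linarith
    have h6 : 1 + Real.log v ≤ 4.5 * Real.log (2 * N) := by linarith
    have h7 : 0 ≤ Real.log (2 * N) := by linarith
    have h8 : 0 ≤ 1 + Real.log v := by
      have := Real.log_nonneg (by exact_mod_cast hv : (1 : ℝ) ≤ v)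
      linarith
    calc 2 * (((2 * L + 1 : ℕ) : ℝ) + v) * (1 + Real.log v)
        ≤ 2 * (11 * N) * (4.5 * Real.log (2 * N)) := by
          apply mul_le_mul _ h6 h8 (by positivity)
          linarith
      _ = 99 * (N * Real.log (2 * N)) := by ring
      _ ≤ 100 * (N * Real.log (2 * N)) := by
          have : 0 ≤ N * Real.log (2 * N) := by positivity
          linarith
  have h5 : (L : ℝ) ≤ 2 * (N * Real.log (2 * N)) := by
    have h6 : (N : ℝ) * 0.69 ≤ N * Real.log (2 * N) :=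
      mul_le_mul_of_nonneg_left (by linarith) (by linarith)
    linarith
  have h6 : 0 ≤ (L : ℝ) ^ 2 / v * (1 + (L : ℝ) ^ 2 * |β|) ^ (-(2 / 3) : ℝ) := by positivity
  linarith

end Stz
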